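import Mathlib
import Pool.Agent.Results.MP_291637_al.NotBGroup
import Pool.Agent.H829R3.BG6

set_option autoImplicit false

namespace Pool.Agent.Results.MP_291637_al.Factorization

open Pool.Agent.Results.MP_291637_al.NotBGroup (IsBGroup)

/-- A countable group that is an exact product `X = YZ`, `Y ∩ Z = 1`, of two infinite subgroups
is not a B-group. -/
theorem result (X : Type) [Group X] [Countable X] (Y Z : Subgroup X) (hY : Infinite Y)
    (hZ : Infinite Z) (h : Subgroup.IsComplement' Y Z) : ¬ IsBGroup X := by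
  refine Pool.Agent.H829R3.BG6.no_grid Y Z hY hZ ?_
  intro a b
  obtain ⟨⟨y, z⟩, hw⟩ := h.2 (a * b⁻¹)
  have hw' : (y : X) * (z : X) = a * b⁻¹ := hw
  refine ⟨(z : X) * b, ⟨?_, ?_⟩, ?_⟩
  · have e : (z : X) * b * a⁻¹ = (y : X)⁻¹ := by
      have e2 : (z : X) = (y : X)⁻¹ * (a * b⁻¹) := by rw [← hw']; group
      rw [e2]; group
    rw [e]
    exact Y.inv_mem y.2
  · have e : (z : X) * b * b⁻¹ = z := by group
    rw [e]
    exact z.2
  · rintro x ⟨h1, h2⟩
    have h3 : (⟨⟨a * x⁻¹, by have := Y.inv_mem h1; rwa [mul_inv_rev, inv_inv] at this⟩,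
        ⟨x * b⁻¹, h2⟩⟩ : Y × Z) = (y, z) := by
      apply h.1
      change a * x⁻¹ * (x * b⁻¹) = (y : X) * (z : X)
      rw [hw']
      group
    have h4 : x * b⁻¹ = (z : X) := congrArg (fun w : Y × Z => (w.2 : X)) h3
    rw [← h4]
    group

end Pool.Agent.Results.MP_291637_al.Factorization
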