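import Mathlib
import Pool.Agent.Results.MP_291637_al.NotBGroup
import Pool.Agent.H829R3.BT5

set_option autoImplicit false

namespace Pool.Agent.Results.MP_291637_al.Lattice

open Pool.Agent.Results.MP_291637_al.NotBGroup (IsBGroup)

/-- A group `X` with a subgroup `L ≅ ℤ^(d+1)` of finite index and a homomorphism to the group of
order two that is not trivial on `L` is not a B-group. -/
theorem result (d : ℕ) (X : Type) [Group X] (L : Subgroup X) (hfi : L.FiniteIndex)
    (hL : Nonempty (L ≃* Multiplicative (Fin (d + 1) → ℤ)))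
    (E : X →* Multiplicative (ZMod 2)) (hE : ∃ l ∈ L, E l ≠ 1) : ¬ IsBGroup X := by
  obtain ⟨φ⟩ := hL
  have hr : (L.subtype.comp φ.symm.toMonoidHom).range = L := by
    rw [MonoidHom.range_comp, MonoidHom.range_eq_top.mpr φ.symm.surjective,
      ← MonoidHom.range_eq_map, Subgroup.range_subtype]
  refine Pool.Agent.H829R3.BT5.lattice d X (L.subtype.comp φ.symm.toMonoidHom)
    (L.subtype_injective.comp φ.symm.injective) (by rw [hr]; exact hfi) E ?_
  obtain ⟨l, hl, h⟩ := hE
  refine ⟨φ ⟨l, hl⟩, ?_⟩
  simpa using h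

end Pool.Agent.Results.MP_291637_al.Lattice
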