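import Mathlib
import Pool.Agent.Results.MP_291637_al.NotBGroup
import Pool.Agent.H829R3.BG3
import Pool.Agent.H829R3.BG5

set_option autoImplicit false

namespace Pool.Agent.Results.MP_291637_al.Structure

open Pool.Agent.H829R3.BG2 (Covered)
open Pool.Agent.Results.MP_291637_al.NotBGroup (IsBGroup)
open scoped commutatorElement

/-- The FC-centre of `X`: the elements having finitely many conjugates. -/
def FCCentre (X : Type) [Group X] : Subgroup X where
  carrier := {h | (Set.range (fun g : X => g * h * g⁻¹)).Finite}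
  mul_mem' := (Pool.Agent.H829R3.BG2.FC X).mul_mem'
  one_mem' := (Pool.Agent.H829R3.BG2.FC X).one_mem'
  inv_mem' := (Pool.Agent.H829R3.BG2.FC X).inv_mem'

theorem FCCentre_eq (X : Type) [Group X] : FCCentre X = Pool.Agent.H829R3.BG2.FC X := rfl

/-- **Structure of countable B-groups.** If the countably infinite group `X` is a B-group, then its
FC-centre `F` has finite index, the derived subgroup `F'` is finite, and some element `v` of finite
order with `v² ≠ 1` inverts modulo `F'` a subgroup `K ≤ F` of finite index in `X`. -/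
theorem result (X : Type) [Group X] [Infinite X] [Countable X] (hB : IsBGroup X) :
    (FCCentre X).FiniteIndex ∧
    Finite (⁅FCCentre X, FCCentre X⁆ : Subgroup X) ∧
    ∃ v : X, IsOfFinOrder v ∧ v ^ 2 ≠ 1 ∧
      ∃ K : Subgroup X, K.FiniteIndex ∧ K ≤ FCCentre X ∧
        ∀ n ∈ K, v⁻¹ * n * v * n ∈ (⁅FCCentre X, FCCentre X⁆ : Subgroup X) := by
  have hX : Covered X := by
    by_contra h
    exact Pool.Agent.H829R3.BG5.not_isBGroup h hB
  obtain ⟨v, hv1, hv2⟩ := Pool.Agent.H829R3.BG3.inverting hX
  have hv3 := Pool.Agent.H829R3.BG3.finOrder hX v hv2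
  have hD := Pool.Agent.H829R3.BG2.D_finite hX
  exact ⟨Pool.Agent.H829R3.BG2.FC_finiteIndex hX, hD, v, hv3, hv1, Pool.Agent.H829R3.BG2.J v, hv2,
    fun n hn => hn.1, fun n hn => Pool.Agent.H829R3.BG2.mem_J_spec v n hn⟩

end Pool.Agent.Results.MP_291637_al.Structure
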