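import Mathlib
import Pool.Agent.Results.MP_291637_al.NotBGroup
import Pool.Agent.H829R3.BV2

set_option autoImplicit false

namespace Pool.Agent.Results.MP_291637_al.VirtuallyCyclic

open Pool.Agent.Results.MP_291637_al.NotBGroup (IsBGroup)

/-- No infinite group with a cyclic subgroup of finite index is a B-group. -/
theorem result (X : Type) [Group X] [Infinite X] (A : Subgroup X) [IsCyclic A]
    (hA : A.FiniteIndex) : ¬ IsBGroup X := by
  obtain ⟨g, hg⟩ := IsCyclic.exists_generator (α := A)
  have h : Subgroup.zpowers (g : X) = A := by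
    apply le_antisymm
    · rw [Subgroup.zpowers_le]
      exact g.2
    · intro x hx
      obtain ⟨z, hz⟩ := Subgroup.mem_zpowers_iff.mp (hg ⟨x, hx⟩)
      exact ⟨z, by simpa using congrArg Subtype.val hz⟩
  exact Pool.Agent.H829R3.BV2.virtuallyCyclic X (g : X) (by rw [h]; exact hA)

end Pool.Agent.Results.MP_291637_al.VirtuallyCyclic
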